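import Pool.Agent.Lib_helper83.Scattered

/-!
# ZF does not prove that compact metrizable dense-in-itself spaces contain infinite compact
scattered subspaces
-/

namespace Pool.Agent.Results.MP_8cb5a2_lc.NotProvableInZF

open Pool.Agent.Lib_helper83.Defs

/-- **Negative answer to Q1.**  There are a model `(M, E)` of ZF and, in it, a nonempty compact
(ultra)metric space `X` without isolated points none of whose infinite subspaces is both compact
and scattered. -/
theorem result : ∃ (M : Type) (E : M → M → Prop), IsZF E ∧
    ∃ X r, IsUltrametric E r X ∧ (∃ x, E x X) ∧ Compact E r X ∧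
      (∀ x, E x X → ∀ n, IsNat E n → ∃ y, E y X ∧ y ≠ x ∧ Near E r n x y) ∧
      ∀ Y, Incl E Y X → ¬ IsFin E Y → ¬ (Compact E r Y ∧ Scattered E r Y) :=
  Pool.Agent.Lib_helper83.exists_model_no_scattered

end Pool.Agent.Results.MP_8cb5a2_lc.NotProvableInZF
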